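import Pool.Agent.Lib_helper81.CTT.Table
import Pool.Agent.Lib_helper69.CTT.Fin

/-!
# Truth-table completeness: exponential time with advice (MP_675993_lc)
-/

set_option autoImplicit false
set_option linter.unusedSectionVars false

namespace Pool.Agent.CKP

open Pool.Agent.CK

variable {O : Lang}
variable {α β γ δ : Type} [ToD α] [ToD β] [ToD γ] [ToD δ]

/-- the search -/
theorem exists_srch {W : ℕ → ℕ → Bool} {ℓ : ℕ → ℕ}
    (hneg : ∀ C, TuringComplete O C → TTComplete O C) (hver : Ver O W ℓ) (hcut : Cut W ℓ)
    {π : Type} [ToD π] {phi : π → List (Bool × ℕ) → List Bool → Bool}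
    (hphi : PTime O (fun p : π × List (Bool × ℕ) × List Bool => phi p.1 p.2.1 p.2.2)) {rr : ℕ}
    (hrr : 1 ≤ rr) :
    ∃ srch : π → List (Bool × ℕ) → List Unit → ℕ → Bool,
      PTime O (fun p : π × List (Bool × ℕ) × List Unit × ℕ => srch p.1 p.2.1 p.2.2.1 p.2.2.2) ∧
      SrchSpec O W ℓ phi rr srch := by
  obtain ⟨d, hd⟩ := CL_complete hver
  obtain ⟨S, h1, h2⟩ := CTT.exists_srch hver hcut (r := rr) (d := d)
    (fun A hA => tt_data ((hneg _ (hd rr hrr)).2 A hA)) hphi
  exact ⟨S, h1, fun u T n U hU _ h3 h4 => h2 u T n U hU h3 h4⟩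

theorem table_tt {W : ℕ → ℕ → Bool} {ℓ : ℕ → ℕ}
    (hneg : ∀ C, TuringComplete O C → TTComplete O C) (hver : Ver O W ℓ) (hcut : Cut W ℓ)
    {π : Type} [ToD π] {phi : π → List (Bool × ℕ) → List Bool → Bool}
    (hphi : PTime O (fun p : π × List (Bool × ℕ) × List Bool => phi p.1 p.2.1 p.2.2)) {rr : ℕ}
    (hrr : 1 ≤ rr) :
    ∃ Tab : π → List Unit → List (Bool × ℕ),
      PTime O (fun p : π × List Unit => Tab p.1 p.2) ∧
      ∀ (u : π) (N : ℕ),
        (∀ (T : List (Bool × ℕ)) (y : List Bool), T.length < N →
          (∀ i < T.length, LeastSpec W i (ent T i)) → y.length ^ rr ≤ T.length →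
          phi u T y = UK O y) →
        ∀ n ≤ N, ∀ i < n, LeastSpec W i (ent (Tab u (List.replicate n ())) i) := by
  obtain ⟨srch, h1, h2⟩ := exists_srch hneg hver hcut hphi hrr
  exact table_of_srch hver h2 h1

theorem FewAltComplete.tt {C : Lang} (h : FewAltComplete O C) : TTComplete O C :=
  ⟨h.1, fun A hA => tt_of_fewAlt (h.2 A hA)⟩

/-! ### exponential time with advice -/

theorem often_ttComplete (hneg : ∀ C, TuringComplete O C → TTComplete O C) (ε : ℝ) (L : Lang)
    (hε : 0 < ε) (hL : InENP O L) : InOftenEadvice O ε L := by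
  obtain ⟨c, hc1, hcε⟩ := exists_r hε
  obtain ⟨W0, ℓ0, ans0, hver0, hans0, hansL0⟩ := core_search hL
  obtain ⟨W, ℓ, ans, hver, hcut, hans, hansL⟩ := nest_pr hver0 hans0 hansL0
  obtain ⟨k, hk⟩ := CL_complete hver
  obtain ⟨Q, V, hQ, hV, hUV⟩ := tt_data
    ((hneg _ (hk (3 * (c + 1)) (by omega))).2 (UK O) UK_inNP)
  obtain ⟨P, hP⟩ := exists_qbound hQ
  obtain ⟨d, hd⟩ := exists_pow P
  obtain ⟨j0, hj0⟩ : ∃ j0 : ℕ, j0 = 3 ^ d := ⟨_, rfl⟩
  obtain ⟨dec, hdec⟩ : ∃ dec : List Bool → List (Bool × ℕ) → List Bool → Bool,
      dec = fun w T y => decR O W (3 * (c + 1)) k Q V (thrW w) (ulen w) T y := ⟨_, rfl⟩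
  have hdecP : PTime O (fun p : List Bool × List (Bool × ℕ) × List Bool =>
      dec p.1 p.2.1 p.2.2) := by
    rw [hdec]
    refine PTime.decR hver (3 * (c + 1)) k hQ hV ?_ PTime.id.fst.ulen PTime.id.snd.fst
      PTime.id.snd.snd
    exact PTime.length (PTime.filter (f := fun _ b => b) PTime.id.fst PTime.id.snd)
  have hphi : PTime O (fun p : List Bool × List (Bool × ℕ) × List Bool =>
      phiW O j0 dec p.1 p.2.1 p.2.2) := by
    unfold phiW
    exact PTime.ite (PTime.nat_lt PTime.id.snd.fst.length (PTime.const j0))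
      (PTime.brute PTime.id.snd.snd (PTime.const (List.replicate (2 ^ (j0 + 1)) ()))).snd hdecP
  obtain ⟨Tab, hTab, hTab'⟩ := table_tt hneg hver hcut (phi := phiW O j0 dec)
    hphi (rr := 2 * d + 1 + (2 * c + 2)) (by omega)
  -- the program
  have hbig : PTime O (fun p : List Bool × List Bool =>
      toNum (List.replicate (2 * (p.2.length + 2) ^ c) ()) p.1) := by
    refine PTime.toNum ?_ PTime.id.fst
    exact ((UPoly.const 2).mul (UPoly.tb c)).comp PTime.id.snd
  have hansW : PTime O (fun p : List Bool × List Bool => ansW c ans Tab p.1 p.2) := by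
    unfold ansW
    refine hans.comp (hbig.pair ?_)
    refine (PTime.ent ?_ hbig).snd
    exact hTab.comp (PTime.id.snd.pair (PTime.cons (PTime.const ()) hbig))
  have hkeyP : PTime O (fun p : List Bool × List Bool =>
      (keyK W (3 * (c + 1)) k ans p.1 (Q p.2)).headD false) :=
    PTime.headD (PTime.keyK hver (3 * (c + 1)) k hans PTime.id.fst (hQ.comp PTime.id.snd))
      (PTime.const false)
  have hVP : PTime O (fun p : List Bool × List Bool => if p.2.headD false = true then
      ansW c ans Tab p.1 p.2.tail
      else (keyK W (3 * (c + 1)) k ans p.1 (Q p.2.tail)).headD false) := by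
    have ht : PTime O (fun p : List Bool × List Bool => (p.1, p.2.tail)) :=
      PTime.id.fst.pair PTime.id.snd.tail
    exact PTime.ite (PTime.headD PTime.id.snd (PTime.const false))
      (PTime.comp (g := fun p : List Bool × List Bool => ansW c ans Tab p.1 p.2) hansW ht)
      (PTime.comp (g := fun p : List Bool × List Bool =>
        (keyK W (3 * (c + 1)) k ans p.1 (Q p.2)).headD false) hkeyP ht)
  refine often_of hc1 hcε (V := fun x w => if w.headD false = true then
      ansW c ans Tab x w.tail else (keyK W (3 * (c + 1)) k ans x (Q w.tail)).headD false)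
    hVP (M := 14) fun m0 hm0 => ?_
  by_cases hkey : ∃ z : List Bool, m0 ≤ z.length ∧ z.length ≤ 2 ^ m0 ∧
      ∀ x : List Bool, 2 ^ x.length ≤ (z.length + 2) ^ c →
        keyK W (3 * (c + 1)) k ans x (Q z) = [L x]
  · -- the key is the advice
    obtain ⟨z, hz1, hz2, hz⟩ := hkey
    refine ⟨false :: z, by simp; omega, by simpa using hz2, fun x hx => ?_⟩
    have h1 := hz x (by simpa using hx)
    simp [h1]
  · -- no advice is needed
    push Not at hkey
    have hshort : ∀ z : List Bool, m0 ≤ z.length → z.length ≤ 2 ^ m0 → ∀ q ∈ Q z,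
        typ q = true → valid W (3 * (c + 1)) k q = true →
        (∀ i < (wss q).length, LeastSpec W i (ent (wss q) i)) →
        (wss q).length < 2 * (z.length + 2) ^ c := by
      intro z hz1 hz2 q hq h1 h2 h3
      obtain ⟨x, hx1, hx2⟩ := hkey z hz1 hz2
      by_contra hcon
      rw [not_lt] at hcon
      refine hx2 ?_
      have hlt : num x < (wss q).length := by
        have g6 := num_lt x
        rw [pow_succ] at g6
        omega
      exact keyK_eq (hansL x) hq h1 h2 hlt (h3 _ hlt)
    have hlen := length_advW m0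
    refine ⟨true :: advW m0, ?_, ?_, fun x hx => ?_⟩
    · rw [List.length_cons, hlen]
      have : m0 < 2 ^ m0 := Nat.lt_two_pow_self
      omega
    · rw [List.length_cons, hlen]
    · rw [List.length_cons, hlen] at hx
      show (if (true :: advW m0).headD false = true then ansW c ans Tab x (true :: advW m0).tail
        else _) = L x
      rw [List.headD_cons, if_pos rfl, List.tail_cons]
      have hN : num x < 2 * (2 ^ m0 + 2) ^ c := by
        have g6 := num_lt x
        rw [pow_succ] at g6
        have h1 : 2 ^ x.length ≤ (2 ^ m0 + 2) ^ c := hx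
        omega
      have hnum : toNum (List.replicate (2 * ((advW m0).length + 2) ^ c) ()) x =
          List.replicate (num x) () := by
        refine toNum_eq _ _ ?_
        rw [List.length_replicate, hlen]
        exact hN.le
      unfold ansW
      rw [hnum, List.length_replicate]
      refine hansL x _ ?_
      have hcons : (() :: List.replicate (num x) ()) = List.replicate (num x + 1) () := rfl
      rw [hcons]
      refine hTab' (advW m0) (2 * (2 ^ m0 + 2) ^ c + 2) ?_ (num x + 1) (by omega) (num x)
        (by omega)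
      -- correctness of the decision procedure
      intro T y hTN hT hy
      unfold phiW
      by_cases h0 : T.length < j0
      · rw [if_pos (by simpa using h0), Bool.eq_iff_iff]
        refine brute_eq ?_
        rw [List.length_replicate]
        refine Nat.pow_le_pow_right (by norm_num) ?_
        have h1 : y.length ≤ y.length ^ (2 * d + 1 + (2 * c + 2)) := Nat.le_self_pow (by omega) _
        omega
      · rw [if_neg (by simpa using h0), hdec]
        show decR O W (3 * (c + 1)) k Q V (thrW (advW m0)) (ulen (advW m0)) T y = UK O y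
        rw [thrW_advW]
        have hyl : y.length ≤ 2 ^ m0 := z2_len (f := 2 * d + 1) (c := c) Nat.one_le_two_pow hy hTN
        refine decR_eq hUV hm0 ?_ (fun z hz1 hz2 => hshort z hz1 (hz2.trans hyl)) ?_
        · rw [ulen_eq, List.length_replicate, hlen]
        · intro z hz q hq i hi
          refine hT i ?_
          have g1 := hP z q hq
          have g2 := poly_mono P hz
          have g3 := hd y.length
          have g4 := z2_pow (m := y.length) (d := d) (e := 2 * c + 2) hj0 hy (not_lt.mp h0)
          omega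

end Pool.Agent.CKP
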