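import Pool.Agent.Lib_helper74.KY.F.Main

/-!
# The table of the least witnesses from a search (MP_675993_lc)

`srch u T n U` decides whether `0^n` has a witness smaller than `U`, if `T` is the table of the
least witnesses for `0, ..., |n| - 1`.  Binary search gives the next entry of the table.
-/

set_option autoImplicit false
set_option linter.unusedSectionVars false
set_option linter.unusedVariables false

namespace Pool.Agent.CKP

open Pool.Agent.CK

variable {O : Lang} {π : Type} [ToD π] {W : ℕ → ℕ → Bool}
  {phi : π → List (Bool × ℕ) → List Bool → Bool} {ℓ : ℕ → ℕ}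
variable {α β γ δ : Type} [ToD α] [ToD β] [ToD γ] [ToD δ]

section defs

variable (ℓ : ℕ → ℕ) (srch : π → List (Bool × ℕ) → List Unit → ℕ → Bool)

/-- the search for a witness of `n` below `U` -/
def searchG (u : π) (T : List (Bool × ℕ)) (n : List Unit) (U : ℕ) : Bool :=
  srch u T n (capB ℓ n U)

/-- the least witness for `n` -/
def leastG (u : π) (T : List (Bool × ℕ)) (n : List Unit) : Bool × ℕ :=
  gfind (searchG ℓ srch u T n) (List.replicate (ℓ n.length) ())

/-- the table of the least witnesses for `0, ..., |n| - 1` -/
def tableG (u : π) (n : List Unit) : List (Bool × ℕ) :=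
  n.foldl (fun T _ => T ++ [leastG ℓ srch u T (ulen T)]) []

end defs

/-- `srch` finds out whether there is a witness smaller than `U`, from the table `T`. -/
def SrchSpec (O : Lang) (W : ℕ → ℕ → Bool) (ℓ : ℕ → ℕ)
    (phi : π → List (Bool × ℕ) → List Bool → Bool) (rr : ℕ)
    (srch : π → List (Bool × ℕ) → List Unit → ℕ → Bool) : Prop :=
  ∀ (u : π) (T : List (Bool × ℕ)) (n : List Unit) (U : ℕ), U ≤ 2 ^ ℓ n.length →
    T.length = n.length → (∀ j < n.length, LeastSpec W j (ent T j)) →
    (∀ y : List Bool, y.length ^ rr ≤ n.length → phi u T y = UK O y) →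
    (srch u T n U = true ↔ ∃ v < U, W n.length v = true)

variable {srch : π → List (Bool × ℕ) → List Unit → ℕ → Bool}

theorem leastG_spec (hver : Ver O W ℓ) {rr : ℕ} (hs : SrchSpec O W ℓ phi rr srch)
    {T : List (Bool × ℕ)} {u : π} {n : List Unit} (hl : T.length = n.length)
    (hT : ∀ j < n.length, LeastSpec W j (ent T j))
    (hphi : ∀ y : List Bool, y.length ^ rr ≤ n.length → phi u T y = UK O y) :
    LeastSpec W n.length (leastG ℓ srch u T n) := by
  unfold leastG
  obtain ⟨h1, h2, _⟩ := gfind_spec (P := fun v => W n.length v = true) (L := ℓ n.length)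
    (g := searchG ℓ srch u T n)
    (fun t ht => by
      unfold searchG
      rw [capB_eq ht]
      exact hs u T n t ht hl hT hphi) (hver.hb n.length)
  exact ⟨h1, h2⟩

theorem tableG_succ (u : π) (n : ℕ) :
    tableG ℓ srch u (List.replicate (n + 1) ()) =
      tableG ℓ srch u (List.replicate n ()) ++
        [leastG ℓ srch u (tableG ℓ srch u (List.replicate n ()))
          (ulen (tableG ℓ srch u (List.replicate n ())))] := by
  unfold tableG
  rw [List.replicate_succ', List.foldl_append]
  rfl

theorem tableG_length (u : π) (n : ℕ) :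
    (tableG ℓ srch u (List.replicate n ())).length = n := by
  induction n with
  | zero => rfl
  | succ n ih => rw [tableG_succ, List.length_append, ih]; rfl

theorem tableG_ent (u : π) (n j : ℕ) (hj : j < n) :
    ent (tableG ℓ srch u (List.replicate n ())) j =
      leastG ℓ srch u (tableG ℓ srch u (List.replicate j ())) (List.replicate j ()) := by
  induction n with
  | zero => omega
  | succ n ih =>
    rw [tableG_succ]
    rcases Nat.lt_succ_iff_lt_or_eq.mp hj with h | h
    · rw [← ih h]
      unfold ent
      rw [List.getD_append _ _ _ _ (by rw [tableG_length]; exact h)]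
    · subst h
      unfold ent
      rw [List.getD_append_right _ _ _ _ (by rw [tableG_length]), tableG_length]
      simp only [Nat.sub_self, List.getD_cons_zero]
      rw [ulen_eq, tableG_length]

theorem tableG_spec (hver : Ver O W ℓ) {rr : ℕ} (hs : SrchSpec O W ℓ phi rr srch)
    {u : π} {n0 : ℕ}
    (hphi : ∀ (T : List (Bool × ℕ)) (y : List Bool), T.length < n0 →
      (∀ i < T.length, LeastSpec W i (ent T i)) → y.length ^ rr ≤ T.length →
      phi u T y = UK O y) :
    ∀ n ≤ n0, ∀ i < n, LeastSpec W i
      (ent (tableG ℓ srch u (List.replicate n ())) i) := by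
  have key : ∀ n < n0, LeastSpec W n (leastG ℓ srch u
      (tableG ℓ srch u (List.replicate n ())) (List.replicate n ())) := by
    intro n
    induction n using Nat.strong_induction_on with
    | _ n ih =>
      intro hn
      have hT : ∀ j < n, LeastSpec W j
          (ent (tableG ℓ srch u (List.replicate n ())) j) := by
        intro j hj
        rw [tableG_ent u n j hj]
        exact ih j hj (by omega)
      have hl := tableG_length (ℓ := ℓ) (srch := srch) u n
      have := leastG_spec (u := u) (n := List.replicate n ())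
        (T := tableG ℓ srch u (List.replicate n ())) hver hs ?_ ?_ ?_
      · simpa using this
      · rw [hl, List.length_replicate]
      · intro j hj
        rw [List.length_replicate] at hj
        exact hT j hj
      · intro y hy
        rw [List.length_replicate] at hy
        exact hphi _ _ (by omega) (fun j hj => hT j (by omega)) (by omega)
  intro n hn i hi
  rw [tableG_ent u n i hi]
  exact key i (by omega)

/-! ### polynomial time -/

theorem PTime.leastG (hℓ : UPoly O ℓ)
    (hsrch : PTime O (fun p : π × List (Bool × ℕ) × List Unit × ℕ =>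
      srch p.1 p.2.1 p.2.2.1 p.2.2.2))
    {u : γ → π} {T : γ → List (Bool × ℕ)} {n : γ → List Unit}
    (hu : PTime O u) (hT : PTime O T) (hn : PTime O n) :
    PTime O (fun x => CKP.leastG ℓ srch (u x) (T x) (n x)) := by
  unfold CKP.leastG
  refine PTime.gfind (g := fun x U => CKP.searchG ℓ srch (u x) (T x) (n x) U) (hℓ.comp hn) ?_
  unfold CKP.searchG
  exact PTime.comp (g := fun p : π × List (Bool × ℕ) × List Unit × ℕ =>
    srch p.1 p.2.1 p.2.2.1 p.2.2.2) hsrch ((hu.comp PTime.id.fst).pair
      ((hT.comp PTime.id.fst).pair ((hn.comp PTime.id.fst).pair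
        (PTime.capB hℓ (hn.comp PTime.id.fst) PTime.id.snd))))

theorem PTime.tableG (hℓ : UPoly O ℓ)
    (hsrch : PTime O (fun p : π × List (Bool × ℕ) × List Unit × ℕ =>
      srch p.1 p.2.1 p.2.2.1 p.2.2.2))
    {u : γ → π} {n : γ → List Unit} (hu : PTime O u) (hn : PTime O n) :
    PTime O (fun x => CKP.tableG ℓ srch (u x) (n x)) := by
  obtain ⟨Pl, hPl⟩ := hℓ.bound
  obtain ⟨Pn, hPn⟩ := hn.size_le
  unfold CKP.tableG
  refine PTime.foldl (l := n) (i := fun _ => ([] : List (Bool × ℕ)))
    (s := fun x T _ => T ++ [CKP.leastG ℓ srch (u x) T (CKP.ulen T)]) hn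
    (PTime.const _) ?_ (Pn * (4 * Pl.comp Pn + 6) + 1) ?_
  · exact PTime.append PTime.id.snd.fst (PTime.cons (PTime.leastG hℓ hsrch
      (hu.comp PTime.id.fst) PTime.id.snd.fst (PTime.ulen PTime.id.snd.fst)) (PTime.const []))
  · intro x l' hl'
    rw [units_eq l']
    have hlen : l'.length ≤ Pn.eval (sz x) :=
      (hl'.length_le.trans (length_le_sz _)).trans (hPn x)
    have h1 := tableG_length (ℓ := ℓ) (srch := srch) (u x) l'.length
    have h2 : ∀ c ∈ CKP.tableG ℓ srch (u x) (List.replicate l'.length ()),
        sz c ≤ 4 * Pl.eval (Pn.eval (sz x)) + 5 := by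
      intro c hc
      obtain ⟨i, hi, rfl⟩ := List.getElem_of_mem hc
      rw [h1] at hi
      have h3 := tableG_ent (ℓ := ℓ) (srch := srch) (u x) l'.length i hi
      have h4 : CKP.ent (CKP.tableG ℓ srch (u x) (List.replicate l'.length ())) i =
          (CKP.tableG ℓ srch (u x) (List.replicate l'.length ()))[i]'(by rw [h1]; exact hi) := by
        unfold CKP.ent
        rw [List.getD_eq_getElem?_getD, List.getElem?_eq_getElem (by rw [h1]; exact hi),
          Option.getD_some]
      rw [← h4, h3]
      generalize CKP.tableG ℓ srch (u x) (List.replicate i ()) = T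
      have h5 := gfind_lt (CKP.searchG ℓ srch (u x) T (List.replicate i ())) (ℓ i)
      have h6 := sz_nat_le_of_lt h5
      have h7 := (num_bool_sz (CKP.leastG ℓ srch (u x) T (List.replicate i ())).1).2
      have h8 : sz (CKP.leastG ℓ srch (u x) T (List.replicate i ())) =
        sz (CKP.leastG ℓ srch (u x) T (List.replicate i ())).1 +
        sz (CKP.leastG ℓ srch (u x) T (List.replicate i ())).2 + 1 := rfl
      have h9 : ℓ i ≤ Pl.eval (Pn.eval (sz x)) := (hPl i).trans (poly_mono Pl (by omega))
      have h10 : (CKP.leastG ℓ srch (u x) T (List.replicate i ())).2 =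
        (CKP.gfind (CKP.searchG ℓ srch (u x) T (List.replicate i ()))
          (List.replicate (ℓ i) ())).2 := by
        unfold CKP.leastG
        rw [List.length_replicate]
      rw [← h10] at h6
      omega
    have h3 := sz_list_le _ h2
    rw [h1] at h3
    have h4 : l'.length * (4 * Pl.eval (Pn.eval (sz x)) + 5 + 1) ≤
        Pn.eval (sz x) * (4 * Pl.eval (Pn.eval (sz x)) + 6) := Nat.mul_le_mul hlen le_rfl
    simp only [Polynomial.eval_add, Polynomial.eval_mul, Polynomial.eval_ofNat,
      Polynomial.eval_one, Polynomial.eval_comp]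
    refine le_trans h3 ?_
    omega

/-- **The table of the least witnesses.** -/
theorem table_of_srch (hver : Ver O W ℓ) {rr : ℕ} (hs : SrchSpec O W ℓ phi rr srch)
    (hsrch : PTime O (fun p : π × List (Bool × ℕ) × List Unit × ℕ =>
      srch p.1 p.2.1 p.2.2.1 p.2.2.2)) :
    ∃ Tab : π → List Unit → List (Bool × ℕ),
      PTime O (fun p : π × List Unit => Tab p.1 p.2) ∧
      ∀ (u : π) (N : ℕ),
        (∀ (T : List (Bool × ℕ)) (y : List Bool), T.length < N →
          (∀ i < T.length, LeastSpec W i (ent T i)) → y.length ^ rr ≤ T.length →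
          phi u T y = UK O y) →
        ∀ n ≤ N, ∀ i < n, LeastSpec W i (ent (Tab u (List.replicate n ())) i) :=
  ⟨fun u n => tableG ℓ srch u n, PTime.tableG hver.hl hsrch PTime.id.fst PTime.id.snd,
    fun _ _ hcor => tableG_spec hver hs hcor⟩

end Pool.Agent.CKP
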